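import Pool.Agent.Helper29.OV.ApiDefs

/-!
# Project OV (MP_81e84b_lc): packet ARC

Arithmetical comprehension gives the closure properties `Closed`.
-/

namespace Pool.Agent.Helper23.OV

open Pool.Agent.Helper29.OV

/-- Types of tuples of numbers; `co c` says that `c e` is a tuple of values of the assignment `e`
at fixed variables. -/
class Tup (α : Type) where
  co : ((ℕ → ℕ) → α) → Prop
  fresh : ∀ c, co c → ∃ N, ∀ j, N ≤ j → ∀ (e : ℕ → ℕ) (a : ℕ), c (Function.update e j a) = c e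

instance tupNat : Tup ℕ where
  co c := ∃ i, c = fun e => e i
  fresh := by
    rintro c ⟨i, rfl⟩
    exact ⟨i + 1, fun j hj e a => Function.update_of_ne (by omega) _ _⟩

instance tupProd {α β : Type} [Tup α] [Tup β] : Tup (α × β) where
  co c := Tup.co (fun e => (c e).1) ∧ Tup.co (fun e => (c e).2)
  fresh := by
    rintro c ⟨h1, h2⟩
    obtain ⟨N1, h1⟩ := Tup.fresh _ h1
    obtain ⟨N2, h2⟩ := Tup.fresh _ h2
    refine ⟨max N1 N2, fun j hj e a => Prod.ext (h1 j (le_trans (le_max_left _ _) hj) e a)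
      (h2 j (le_trans (le_max_right _ _) hj) e a)⟩

variable {𝓜 : Set (Set ℕ)} {α β : Type} [Tup α] [Tup β]

/-- Arithmetically definable predicates of a tuple. -/
def Dfn (𝓜 : Set (Set ℕ)) {α : Type} [Tup α] (P : α → Prop) : Prop :=
  ∀ c : (ℕ → ℕ) → α, Tup.co c → Arith 𝓜 fun e => P (c e)

/-- Arithmetically definable functions of a tuple. -/
def Fn (𝓜 : Set (Set ℕ)) {α : Type} [Tup α] (f : α → ℕ) : Prop :=
  Dfn 𝓜 fun p : α × ℕ => f p.1 = p.2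

theorem Dfn.congr {P Q : α → Prop} (h : Dfn 𝓜 P) (hPQ : ∀ a, P a ↔ Q a) : Dfn 𝓜 Q := by
  have : P = Q := funext fun a => propext (hPQ a)
  rwa [← this]

theorem Dfn.not {P : α → Prop} (h : Dfn 𝓜 P) : Dfn 𝓜 fun a => ¬ P a :=
  fun c hc => Arith.neg (h c hc)

theorem Dfn.and {P Q : α → Prop} (h : Dfn 𝓜 P) (h' : Dfn 𝓜 Q) : Dfn 𝓜 fun a => P a ∧ Q a :=
  fun c hc => Arith.and (h c hc) (h' c hc)

theorem Dfn.or {P Q : α → Prop} (h : Dfn 𝓜 P) (h' : Dfn 𝓜 Q) : Dfn 𝓜 fun a => P a ∨ Q a :=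
  (h.not.and h'.not).not.congr fun a => by tauto

theorem Dfn.imp {P Q : α → Prop} (h : Dfn 𝓜 P) (h' : Dfn 𝓜 Q) : Dfn 𝓜 fun a => P a → Q a :=
  (h.and h'.not).not.congr fun a => by tauto

theorem Dfn.ex {P : α → ℕ → Prop} (h : Dfn 𝓜 fun p : α × ℕ => P p.1 p.2) :
    Dfn 𝓜 fun a => ∃ n, P a n := by
  intro c hc
  obtain ⟨N, hN⟩ := Tup.fresh c hc
  have h1 := Arith.ex N (h (fun e => (c e, e N)) ⟨hc, N, rfl⟩)
  have h2 : (fun e : ℕ → ℕ => ∃ a, (fun e => P (c e, e N).1 (c e, e N).2)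
      (Function.update e N a)) = fun e => ∃ a, P (c e) a := by
    funext e
    simp [hN N le_rfl]
  rwa [h2] at h1

theorem Dfn.all {P : α → ℕ → Prop} (h : Dfn 𝓜 fun p : α × ℕ => P p.1 p.2) :
    Dfn 𝓜 fun a => ∀ n, P a n :=
  (Dfn.ex (P := fun a n => ¬ P a n) h.not).not.congr fun a => by simp

/-- Change of coordinates. -/
theorem Dfn.co {P : β → Prop} (h : Dfn 𝓜 P) (g : α → β)
    (hg : ∀ c, Tup.co c → Tup.co fun e => g (c e)) : Dfn 𝓜 fun a => P (g a) :=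
  fun c hc => h _ (hg c hc)

theorem Fn.co {f : β → ℕ} (h : Fn 𝓜 f) (g : α → β)
    (hg : ∀ c, Tup.co c → Tup.co fun e => g (c e)) : Fn 𝓜 fun a => f (g a) :=
  Dfn.co (P := fun p : β × ℕ => f p.1 = p.2) h (fun p : α × ℕ => (g p.1, p.2))
    fun _ hc => ⟨hg _ hc.1, hc.2⟩

/-- Substitution of a function for the last coordinate. -/
theorem Dfn.sub {P : α → ℕ → Prop} (h : Dfn 𝓜 fun p : α × ℕ => P p.1 p.2) {f : α → ℕ}
    (hf : Fn 𝓜 f) : Dfn 𝓜 fun a => P a (f a) :=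
  (Dfn.ex (P := fun a n => f a = n ∧ P a n) (hf.and h)).congr fun a => by simp

theorem Dfn.sub1 {P : ℕ → Prop} (h : Dfn 𝓜 P) {f : α → ℕ} (hf : Fn 𝓜 f) :
    Dfn 𝓜 fun a => P (f a) :=
  Dfn.sub (P := fun _ n => P n) (Dfn.co h (fun p : α × ℕ => p.2) fun _ hc => hc.2) hf

theorem Dfn.sub2 {P : ℕ → ℕ → Prop} (h : Dfn 𝓜 fun q : ℕ × ℕ => P q.1 q.2) {f g : α → ℕ}
    (hf : Fn 𝓜 f) (hg : Fn 𝓜 g) : Dfn 𝓜 fun a => P (f a) (g a) := by
  have h1 : Dfn 𝓜 fun p : (α × ℕ) × ℕ => P p.1.2 p.2 :=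
    Dfn.co h (fun p : (α × ℕ) × ℕ => (p.1.2, p.2)) fun _ hc => ⟨hc.1.2, hc.2⟩
  have h2 : Dfn 𝓜 fun p : α × ℕ => P p.2 (g p.1) :=
    Dfn.sub (P := fun p n => P p.2 n) h1 (hg.co (fun p : α × ℕ => p.1) fun _ hc => hc.1)
  exact Dfn.sub (P := fun a n => P n (g a)) h2 hf

theorem Fn.coord {f : α → ℕ} (hf : ∀ c, Tup.co c → Tup.co fun e => f (c e)) : Fn 𝓜 f := by
  have heq : Dfn 𝓜 fun q : ℕ × ℕ => q.1 = q.2 := by
    rintro c ⟨⟨i, hi⟩, ⟨j, hj⟩⟩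
    have h1 : Dfn 𝓜 fun p : (ℕ × ℕ) × ℕ => p.2 + p.2 = p.2 ∧ p.1.1 + p.2 = p.1.2 := by
      rintro c ⟨⟨⟨i, hi⟩, ⟨j, hj⟩⟩, ⟨k, hk⟩⟩
      have h2 := Arith.and (Arith.add (𝓜 := 𝓜) k k k) (Arith.add (𝓜 := 𝓜) i k j)
      have h3 : (fun e => (c e).2 + (c e).2 = (c e).2 ∧ (c e).1.1 + (c e).2 = (c e).1.2) =
          fun e : ℕ → ℕ => e k + e k = e k ∧ e i + e k = e j := by
        funext e
        rw [congrFun hi e, congrFun hj e, congrFun hk e]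
      rw [h3]
      exact h2
    have h4 : Dfn 𝓜 fun q : ℕ × ℕ => q.1 = q.2 :=
      (Dfn.ex (P := fun (q : ℕ × ℕ) n => n + n = n ∧ q.1 + n = q.2) h1).congr fun q => by
        constructor
        · rintro ⟨n, h5, h6⟩
          omega
        · intro h5
          exact ⟨0, rfl, h5⟩
    exact h4 c ⟨⟨i, hi⟩, ⟨j, hj⟩⟩
  exact Dfn.co heq (fun p : α × ℕ => (f p.1, p.2)) fun _ hc => ⟨hf _ hc.1, hc.2⟩

theorem Fn.id : Fn 𝓜 fun n : ℕ => n := Fn.coord fun _ hc => hc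

theorem Dfn.eq {f g : α → ℕ} (hf : Fn 𝓜 f) (hg : Fn 𝓜 g) : Dfn 𝓜 fun a => f a = g a :=
  Dfn.sub (P := fun a n => f a = n) hf hg

/-- A function is definable if its graph is. -/
theorem Fn.of_graph {f : α → ℕ} {P : α → ℕ → Prop} (h : Dfn 𝓜 fun p : α × ℕ => P p.1 p.2)
    (hP : ∀ a n, P a n ↔ f a = n) : Fn 𝓜 f :=
  Dfn.congr (Q := fun p : α × ℕ => f p.1 = p.2) h fun p => hP p.1 p.2

theorem add_graph : Dfn 𝓜 fun p : (ℕ × ℕ) × ℕ => p.1.1 + p.1.2 = p.2 := by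
  rintro c ⟨⟨⟨i, hi⟩, ⟨j, hj⟩⟩, ⟨k, hk⟩⟩
  have h3 : (fun e => (c e).1.1 + (c e).1.2 = (c e).2) =
      fun e : ℕ → ℕ => e i + e j = e k := by
    funext e
    rw [congrFun hi e, congrFun hj e, congrFun hk e]
  rw [h3]
  exact Arith.add i j k

theorem mul_graph : Dfn 𝓜 fun p : (ℕ × ℕ) × ℕ => p.1.1 * p.1.2 = p.2 := by
  rintro c ⟨⟨⟨i, hi⟩, ⟨j, hj⟩⟩, ⟨k, hk⟩⟩
  have h3 : (fun e => (c e).1.1 * (c e).1.2 = (c e).2) =
      fun e : ℕ → ℕ => e i * e j = e k := by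
    funext e
    rw [congrFun hi e, congrFun hj e, congrFun hk e]
  rw [h3]
  exact Arith.mul i j k

/-- Substitution of functions into a binary function. -/
theorem Fn.comp2 {F : ℕ → ℕ → ℕ} (h : Dfn 𝓜 fun p : (ℕ × ℕ) × ℕ => F p.1.1 p.1.2 = p.2)
    {f g : α → ℕ} (hf : Fn 𝓜 f) (hg : Fn 𝓜 g) : Fn 𝓜 fun a => F (f a) (g a) := by
  have h1 : Dfn 𝓜 fun p : ((α × ℕ) × ℕ) × ℕ => F p.1.2 p.2 = p.1.1.2 :=
    Dfn.co (P := fun p : (ℕ × ℕ) × ℕ => F p.1.1 p.1.2 = p.2) h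
      (fun p : ((α × ℕ) × ℕ) × ℕ => ((p.1.2, p.2), p.1.1.2)) fun _ hc => ⟨⟨hc.1.2, hc.2⟩, hc.1.1.2⟩
  have h2 : Dfn 𝓜 fun p : (α × ℕ) × ℕ => F p.2 (g p.1.1) = p.1.2 :=
    Dfn.sub (P := fun (p : (α × ℕ) × ℕ) n => F p.2 n = p.1.2) h1
      (hg.co (fun p : (α × ℕ) × ℕ => p.1.1) fun _ hc => hc.1.1)
  exact Dfn.sub (P := fun (p : α × ℕ) n => F n (g p.1) = p.2) h2
    (hf.co (fun p : α × ℕ => p.1) fun _ hc => hc.1)

/-- Substitution of a function into a unary function. -/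
theorem Fn.comp1 {F : ℕ → ℕ} (h : Fn 𝓜 F) {f : α → ℕ} (hf : Fn 𝓜 f) : Fn 𝓜 fun a => F (f a) := by
  have h1 : Dfn 𝓜 fun p : (α × ℕ) × ℕ => F p.2 = p.1.2 :=
    Dfn.co (P := fun p : ℕ × ℕ => F p.1 = p.2) h
      (fun p : (α × ℕ) × ℕ => (p.2, p.1.2)) fun _ hc => ⟨hc.2, hc.1.2⟩
  exact Dfn.sub (P := fun (p : α × ℕ) n => F n = p.2) h1
    (hf.co (fun p : α × ℕ => p.1) fun _ hc => hc.1)

theorem Fn.add {f g : α → ℕ} (hf : Fn 𝓜 f) (hg : Fn 𝓜 g) : Fn 𝓜 fun a => f a + g a :=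
  Fn.comp2 (F := fun x y => x + y) add_graph hf hg

theorem Fn.mul {f g : α → ℕ} (hf : Fn 𝓜 f) (hg : Fn 𝓜 g) : Fn 𝓜 fun a => f a * g a :=
  Fn.comp2 (F := fun x y => x * y) mul_graph hf hg

theorem Fn.zero : Fn 𝓜 fun _ : α => 0 :=
  Fn.of_graph (P := fun _ n => n + n = n)
    (Dfn.eq (Fn.add (Fn.coord fun _ hc => hc.2) (Fn.coord fun _ hc => hc.2))
      (Fn.coord (f := fun p : α × ℕ => p.2) fun _ hc => hc.2)) fun a n => by omega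

theorem Fn.one : Fn 𝓜 fun _ : α => 1 := by
  have hz : Fn 𝓜 fun p : α × ℕ => p.2 := Fn.coord fun _ hc => hc.2
  refine Fn.of_graph (P := fun _ n => n * n = n ∧ ¬ n = 0)
    ((Dfn.eq (hz.mul hz) hz).and (Dfn.eq hz Fn.zero).not) fun a n => ?_
  constructor
  · rintro ⟨h1, h2⟩
    have : n = 1 := by
      have h3 : n * n = n * 1 := by rw [h1, mul_one]
      exact Nat.eq_of_mul_eq_mul_left (Nat.pos_of_ne_zero h2) h3
    exact this.symm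
  · rintro rfl
    exact ⟨rfl, one_ne_zero⟩

theorem Dfn.le {f g : α → ℕ} (hf : Fn 𝓜 f) (hg : Fn 𝓜 g) : Dfn 𝓜 fun a => f a ≤ g a := by
  have h1 : Fn 𝓜 fun p : α × ℕ => f p.1 := hf.co (fun p : α × ℕ => p.1) fun _ hc => hc.1
  have h2 : Fn 𝓜 fun p : α × ℕ => g p.1 := hg.co (fun p : α × ℕ => p.1) fun _ hc => hc.1
  have h3 : Fn 𝓜 fun p : α × ℕ => p.2 := Fn.coord fun _ hc => hc.2
  refine (Dfn.ex (P := fun a n => f a + n = g a) (Dfn.eq (h1.add h3) h2)).congr fun a => ?_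
  constructor
  · rintro ⟨n, hn⟩
    omega
  · intro h
    exact ⟨g a - f a, by omega⟩

theorem Dfn.lt {f g : α → ℕ} (hf : Fn 𝓜 f) (hg : Fn 𝓜 g) : Dfn 𝓜 fun a => f a < g a :=
  (Dfn.le hg hf).not.congr fun a => by omega

theorem Fn.succ {f : α → ℕ} (hf : Fn 𝓜 f) : Fn 𝓜 fun a => f a + 1 := hf.add Fn.one

theorem pair_graph : Dfn 𝓜 fun p : (ℕ × ℕ) × ℕ => Nat.pair p.1.1 p.1.2 = p.2 := by
  have ha : Fn 𝓜 fun p : (ℕ × ℕ) × ℕ => p.1.1 := Fn.coord fun _ hc => hc.1.1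
  have hb : Fn 𝓜 fun p : (ℕ × ℕ) × ℕ => p.1.2 := Fn.coord fun _ hc => hc.1.2
  have hc : Fn 𝓜 fun p : (ℕ × ℕ) × ℕ => p.2 := Fn.coord fun _ hc => hc.2
  have h := ((Dfn.lt ha hb).and (Dfn.eq ((hb.mul hb).add ha) hc)).or
    ((Dfn.lt ha hb).not.and (Dfn.eq (((ha.mul ha).add ha).add hb) hc))
  refine h.congr fun p => ?_
  unfold Nat.pair
  split_ifs with h1 <;> simp [h1]

theorem Fn.pair {f g : α → ℕ} (hf : Fn 𝓜 f) (hg : Fn 𝓜 g) : Fn 𝓜 fun a => Nat.pair (f a) (g a) :=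
  Fn.comp2 (F := fun x y => Nat.pair x y) pair_graph hf hg

theorem unpair1 : Fn 𝓜 fun n : ℕ => n.unpair.1 := by
  have h1 : Fn 𝓜 fun p : (ℕ × ℕ) × ℕ => p.1.2 := Fn.coord fun _ hc => hc.1.2
  have h2 : Fn 𝓜 fun p : (ℕ × ℕ) × ℕ => p.2 := Fn.coord fun _ hc => hc.2
  have h3 : Fn 𝓜 fun p : (ℕ × ℕ) × ℕ => p.1.1 := Fn.coord fun _ hc => hc.1.1
  refine Fn.of_graph (P := fun n a => ∃ b, Nat.pair a b = n)
    (Dfn.ex (P := fun (p : ℕ × ℕ) b => Nat.pair p.2 b = p.1) (Dfn.eq (h1.pair h2) h3)) fun n a => ?_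
  constructor
  · rintro ⟨b, rfl⟩
    simp
  · rintro rfl
    exact ⟨n.unpair.2, Nat.pair_unpair n⟩

theorem unpair2 : Fn 𝓜 fun n : ℕ => n.unpair.2 := by
  have h1 : Fn 𝓜 fun p : (ℕ × ℕ) × ℕ => p.1.2 := Fn.coord fun _ hc => hc.1.2
  have h2 : Fn 𝓜 fun p : (ℕ × ℕ) × ℕ => p.2 := Fn.coord fun _ hc => hc.2
  have h3 : Fn 𝓜 fun p : (ℕ × ℕ) × ℕ => p.1.1 := Fn.coord fun _ hc => hc.1.1
  refine Fn.of_graph (P := fun n b => ∃ a, Nat.pair a b = n)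
    (Dfn.ex (P := fun (p : ℕ × ℕ) a => Nat.pair a p.2 = p.1) (Dfn.eq (h2.pair h1) h3)) fun n b => ?_
  constructor
  · rintro ⟨a, rfl⟩
    simp
  · rintro rfl
    exact ⟨n.unpair.1, Nat.pair_unpair n⟩

/-- The graph of `(a, d) ↦ a % (d + 1)`. -/
theorem mod_graph : Dfn 𝓜 fun p : (ℕ × ℕ) × ℕ => p.1.1 % (p.1.2 + 1) = p.2 := by
  have ha : Fn 𝓜 fun p : ((ℕ × ℕ) × ℕ) × ℕ => p.1.1.1 := Fn.coord fun _ hc => hc.1.1.1
  have hd : Fn 𝓜 fun p : ((ℕ × ℕ) × ℕ) × ℕ => p.1.1.2 := Fn.coord fun _ hc => hc.1.1.2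
  have hr : Fn 𝓜 fun p : ((ℕ × ℕ) × ℕ) × ℕ => p.1.2 := Fn.coord fun _ hc => hc.1.2
  have hq : Fn 𝓜 fun p : ((ℕ × ℕ) × ℕ) × ℕ => p.2 := Fn.coord fun _ hc => hc.2
  refine (Dfn.ex (P := fun (p : (ℕ × ℕ) × ℕ) q => p.1.1 = q * (p.1.2 + 1) + p.2 ∧ p.2 < p.1.2 + 1)
    ((Dfn.eq ha ((hq.mul hd.succ).add hr)).and (Dfn.lt hr hd.succ))).congr fun p => ?_
  constructor
  · rintro ⟨q, h1, h2⟩
    rw [h1, Nat.mul_comm, Nat.mul_add_mod, Nat.mod_eq_of_lt h2]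
  · intro h
    refine ⟨p.1.1 / (p.1.2 + 1), ?_, ?_⟩
    · rw [← h]
      exact (Nat.div_add_mod' _ _).symm
    · rw [← h]
      exact Nat.mod_lt _ (Nat.succ_pos _)

theorem Fn.beta {f g : α → ℕ} (hf : Fn 𝓜 f) (hg : Fn 𝓜 g) :
    Fn 𝓜 fun a => Nat.beta (f a) (g a) := by
  have h1 : Fn 𝓜 fun a => (f a).unpair.1 := Fn.comp1 unpair1 hf
  have h2 : Fn 𝓜 fun a => (g a + 1) * (f a).unpair.2 := (hg.succ).mul (Fn.comp1 unpair2 hf)
  exact Fn.comp2 (F := fun x y => x % (y + 1)) mod_graph h1 h2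

/-- Primitive recursive functions are arithmetically definable. -/
theorem fn_of_primrec {f : ℕ → ℕ} (hf : Nat.Primrec f) : Fn 𝓜 f := by
  induction hf with
  | zero => exact Fn.zero
  | succ => exact Fn.succ Fn.id
  | left => exact unpair1
  | right => exact unpair2
  | pair _ _ h1 h2 => exact Fn.pair h1 h2
  | comp _ _ h1 h2 => exact Fn.comp1 h1 h2
  | @prec f g _ _ hf hg =>
    -- the coordinates `x`, `y`, `c`, `i`
    have hx3 : Fn 𝓜 fun p : ((ℕ × ℕ) × ℕ) => p.1.1 := Fn.coord fun _ hc => hc.1.1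
    have hy3 : Fn 𝓜 fun p : ((ℕ × ℕ) × ℕ) => p.1.2 := Fn.coord fun _ hc => hc.1.2
    have hc3 : Fn 𝓜 fun p : ((ℕ × ℕ) × ℕ) => p.2 := Fn.coord fun _ hc => hc.2
    have hx4 : Fn 𝓜 fun p : ((ℕ × ℕ) × ℕ) × ℕ => p.1.1.1 := Fn.coord fun _ hc => hc.1.1.1
    have hc4 : Fn 𝓜 fun p : ((ℕ × ℕ) × ℕ) × ℕ => p.1.2 := Fn.coord fun _ hc => hc.1.2
    have hi4 : Fn 𝓜 fun p : ((ℕ × ℕ) × ℕ) × ℕ => p.2 := Fn.coord fun _ hc => hc.2
    have h1 : Dfn 𝓜 fun p : (ℕ × ℕ) × ℕ => Nat.beta p.2 0 = f p.1.1.unpair.1 :=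
      Dfn.eq (hc3.beta Fn.zero) (Fn.comp1 hf (Fn.comp1 unpair1 hx3))
    have h2 : Dfn 𝓜 fun p : (ℕ × ℕ) × ℕ => ∀ i, i < p.1.1.unpair.2 →
        Nat.beta p.2 (i + 1) = g (Nat.pair p.1.1.unpair.1 (Nat.pair i (Nat.beta p.2 i))) :=
      Dfn.all (P := fun (p : (ℕ × ℕ) × ℕ) i => i < p.1.1.unpair.2 →
          Nat.beta p.2 (i + 1) = g (Nat.pair p.1.1.unpair.1 (Nat.pair i (Nat.beta p.2 i))))
        ((Dfn.lt hi4 (Fn.comp1 unpair2 hx4)).imp (Dfn.eq (hc4.beta hi4.succ)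
          (Fn.comp1 hg ((Fn.comp1 unpair1 hx4).pair (hi4.pair (hc4.beta hi4))))))
    have h3 : Dfn 𝓜 fun p : (ℕ × ℕ) × ℕ => Nat.beta p.2 p.1.1.unpair.2 = p.1.2 :=
      Dfn.eq (hc3.beta (Fn.comp1 unpair2 hx3)) hy3
    have h4 := Dfn.ex (P := fun (p : ℕ × ℕ) c => Nat.beta c 0 = f p.1.unpair.1 ∧
      (∀ i, i < p.1.unpair.2 →
        Nat.beta c (i + 1) = g (Nat.pair p.1.unpair.1 (Nat.pair i (Nat.beta c i)))) ∧
      Nat.beta c p.1.unpair.2 = p.2) (h1.and (h2.and h3))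
    refine Fn.of_graph (P := fun x y => ∃ c, Nat.beta c 0 = f x.unpair.1 ∧
      (∀ i, i < x.unpair.2 →
        Nat.beta c (i + 1) = g (Nat.pair x.unpair.1 (Nat.pair i (Nat.beta c i)))) ∧
      Nat.beta c x.unpair.2 = y) h4 fun x y => ?_
    set z := x.unpair.1 with hz
    set n := x.unpair.2 with hn
    let F : ℕ → ℕ := fun m => Nat.rec (f z) (fun y IH => g (Nat.pair z (Nat.pair y IH))) m
    have hF : (Nat.unpaired (fun z n =>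
        Nat.rec (f z) (fun y IH => g (Nat.pair z (Nat.pair y IH))) n) x : ℕ) = F n := rfl
    rw [hF]
    constructor
    · rintro ⟨c, h0, hs, he⟩
      have hind : ∀ m, m ≤ n → Nat.beta c m = F m := by
        intro m
        induction m with
        | zero => intro _; exact h0
        | succ m ih =>
          intro hm
          rw [hs m (by omega), ih (by omega)]
      rw [← he]
      exact (hind n le_rfl).symm
    · intro hy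
      have hb : ∀ m, m ≤ n → Nat.beta (Nat.unbeta ((List.range (n + 1)).map F)) m = F m := by
        intro m hm
        have hlen : m < ((List.range (n + 1)).map F).length := by simp; omega
        have := Nat.beta_unbeta_coe ((List.range (n + 1)).map F) ⟨m, hlen⟩
        simpa using this
      refine ⟨Nat.unbeta ((List.range (n + 1)).map F), hb 0 (Nat.zero_le _), ?_, ?_⟩
      · intro i hi
        rw [hb (i + 1) (by omega), hb i (by omega)]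
      · rw [hb n le_rfl, hy]

/-- Comprehension for definable predicates. -/
theorem comprehension (h : IsOmegaModelACA 𝓜) {P : ℕ → Prop} (hP : Dfn 𝓜 P) : {a | P a} ∈ 𝓜 := by
  have h1 := h _ (hP (fun e => e 0) ⟨0, rfl⟩) (fun _ => 0) 0
  simpa using h1

theorem mem_dfn {X : Set ℕ} (hX : X ∈ 𝓜) : Dfn 𝓜 fun n : ℕ => n ∈ X := by
  rintro c ⟨i, rfl⟩
  exact Arith.mem X hX i

/-- The packet `ARC`. -/
theorem closed_of_aca {𝓜 : Set (Set ℕ)} (h : IsOmegaModelACA 𝓜) : Closed 𝓜 where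
  zero := by
    have := comprehension h (P := fun n => n = 0) (Dfn.eq Fn.id Fn.zero)
    exact this
  compl := fun X hX => comprehension h (mem_dfn hX).not
  inter := fun X hX Y hY => comprehension h ((mem_dfn hX).and (mem_dfn hY))
  preimage := fun X hX g hg => comprehension h (Dfn.sub1 (mem_dfn hX) (fn_of_primrec hg))
  proj := fun X hX => comprehension h (Dfn.ex (P := fun n k => Nat.pair n k ∈ X)
    (Dfn.sub1 (mem_dfn hX) (Fn.pair (Fn.coord fun _ hc => hc.1) (Fn.coord fun _ hc => hc.2))))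

end Pool.Agent.Helper23.OV
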