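import Pool.Agent.Helper84.OV.Zero

/-!
# Packet OV-WRD (MP_57df85_nt): words in the two derivations
-/

set_option autoImplicit false

namespace Pool.Agent.Helper23.OV.WRD

open Finset
open Pool.Agent.Helper84.OV
open scoped Polynomial

lemma naX_add (C D : Fin 3 → R2) : naX (C + D) = naX C + naX D := by
  funext i
  fin_cases i <;> simp [naX, dX_add] <;> ring

lemma naY_add (C D : Fin 3 → R2) : naY (C + D) = naY C + naY D := by
  funext i
  fin_cases i <;> simp [naY] <;> ring

lemma naX_smul (h : R2) (C : Fin 3 → R2) : naX (h • C) = h • naX C + (EE * dX h) • C := by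
  funext i
  fin_cases i <;> simp [naX, dX_mul] <;> ring

lemma naY_smul (h : R2) (C : Fin 3 → R2) :
    naY (h • C) = h • naY C + (EE * Polynomial.derivative h) • C := by
  funext i
  fin_cases i <;> simp [naY, Polynomial.derivative_mul] <;> ring

lemma naD_eq (G : R2) (C : Fin 3 → R2) :
    naD G C = Polynomial.derivative G • naX C - dX G • naY C := rfl

lemma naD_add (G : R2) (C D : Fin 3 → R2) : naD G (C + D) = naD G C + naD G D := by
  rw [naD_eq, naD_eq, naD_eq, naX_add, naY_add, smul_add, smul_add]
  abel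

lemma naD_smul (G h : R2) (C : Fin 3 → R2) :
    naD G (h • C) = h • naD G C +
      (EE * (Polynomial.derivative G * dX h - dX G * Polynomial.derivative h)) • C := by
  rw [naD_eq, naD_eq, naX_smul, naY_smul]
  funext i
  simp only [Pi.sub_apply, Pi.add_apply, Pi.smul_apply, smul_eq_mul]
  ring

/-- span of the words of length at most `j` -/
noncomputable def MM (B : Fin 3 → R2) (j : ℕ) : Submodule R2 (Fin 3 → R2) :=
  Submodule.span R2 {C | ∃ w : List Bool, w.length ≤ j ∧ C = nab w B}

lemma MM_mono (B : Fin 3 → R2) (j : ℕ) : MM B j ≤ MM B (j + 1) := by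
  refine Submodule.span_mono ?_
  rintro C ⟨w, hw, rfl⟩
  exact ⟨w, by omega, rfl⟩

lemma nab_mem (B : Fin 3 → R2) (w : List Bool) (j : ℕ) (h : w.length ≤ j) : nab w B ∈ MM B j :=
  Submodule.subset_span ⟨w, h, rfl⟩

lemma naD_mem (G : R2) (B : Fin 3 → R2) (j : ℕ) (C : Fin 3 → R2) (hC : C ∈ MM B j) :
    naD G C ∈ MM B (j + 1) := by
  unfold MM at hC
  induction hC using Submodule.span_induction with
  | mem x hx =>
    obtain ⟨w, hw, rfl⟩ := hx
    rw [naD_eq]
    refine Submodule.sub_mem _ (Submodule.smul_mem _ _ ?_) (Submodule.smul_mem _ _ ?_)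
    · exact nab_mem B (true :: w) (j + 1) (by simpa using hw)
    · exact nab_mem B (false :: w) (j + 1) (by simpa using hw)
  | zero =>
    have h0 : naD G 0 = 0 := by
      have h1 := naD_smul G 0 0
      rw [zero_smul, zero_smul, zero_add] at h1
      rw [h1, smul_zero]
    rw [h0]
    exact Submodule.zero_mem _
  | add x y _ _ hx hy =>
    rw [naD_add]
    exact Submodule.add_mem _ hx hy
  | smul h x hx1 hx =>
    rw [naD_smul]
    exact Submodule.add_mem _ (Submodule.smul_mem _ _ hx)
      (Submodule.smul_mem _ _ (MM_mono B j hx1))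

lemma iter_mem (G : R2) (B : Fin 3 → R2) (j : ℕ) : (naD G)^[j] B ∈ MM B j := by
  induction j with
  | zero => exact nab_mem B [] 0 (by simp)
  | succ n ih =>
    rw [Function.iterate_succ_apply']
    exact naD_mem G B n _ ih

lemma evt_zero_of_mem (p q u v : ℤ) (B : Fin 3 → R2) (j : ℕ)
    (h : ∀ w : List Bool, w.length ≤ j → evt p q u v (nab w B) = 0) (C : Fin 3 → R2)
    (hC : C ∈ MM B j) : evt p q u v C = 0 := by
  unfold MM at hC
  induction hC using Submodule.span_induction with
  | mem x hx =>
    obtain ⟨w, hw, rfl⟩ := hx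
    exact h w hw
  | zero => simp [evt]
  | add x y _ _ hx hy =>
    have h1 : evt p q u v (x + y) = evt p q u v x + evt p q u v y := by
      simp only [evt, Pi.add_apply, map_add]
      ring
    rw [h1, hx, hy, add_zero]
  | smul a x _ hx =>
    have h1 : evt p q u v (a • x) = ev p q a * evt p q u v x := by
      simp only [evt, Pi.smul_apply, smul_eq_mul, map_mul]
      ring
    rw [h1, hx, mul_zero]

theorem t : S_WRD := by
  intro G p q u v B J hJ j hj
  exact evt_zero_of_mem p q u v B j (fun w hw ↦ hJ w (hw.trans hj)) _ (iter_mem G B j)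

end Pool.Agent.Helper23.OV.WRD
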